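import Pool.Agent.Helper70.SK.Stmts
import Pool.Agent.Helper70.SK.Lib

/-! The partner space: range, marginals, symmetry. -/

set_option autoImplicit false

namespace Pool.Agent.Helper70.SK

open Finset Pool.Agent.Helper70.DK

variable {m q : ℕ}

theorem para_fib {Ω β : Type} (S : Finset Ω) (g : Ω → β) (c : β) (ω : Ω) :
    ω ∈ fib S g c ↔ ω ∈ S ∧ g ω = c := by
  classical
  unfold fib
  exact Finset.mem_filter

theorem para_N0 (σ : Sy m q) (B k K : ℕ) {z : ℕ × (Fin m → ℤ)} (hz : z ∈ σ.GX B) :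
    (fib (σ.GX B) (σ.ff B k K) (σ.ff B k K z)).Nonempty ∧
    (fib (σ.GX B) (σ.ff B k K) (σ.ff B k K z)).card ∣ σ.N0 B := by
  have h1 : (fib (σ.GX B) (σ.ff B k K) (σ.ff B k K z)).Nonempty :=
    ⟨z, (para_fib _ _ _ _).2 ⟨hz, rfl⟩⟩
  refine ⟨h1, Nat.dvd_factorial h1.card_pos ?_⟩
  exact Finset.card_le_card (fun ω hω => ((para_fib _ _ _ _).1 hω).1)

theorem para_pa (hPK : ST_PK) (σ : Sy m q) (B k K : ℕ) {z : ℕ × (Fin m → ℤ)} (hz : z ∈ σ.GX B)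
    (j : ℕ) : σ.pa B k K z j ∈ σ.GX B ∧ σ.ff B k K (σ.pa B k K z j) = σ.ff B k K z := by
  obtain ⟨h1, h2⟩ := para_N0 σ B k K hz
  exact (para_fib _ _ _ _).1 ((hPK _ _ _ z h1 h2).1 j)

theorem para_pa1 (hPK : ST_PK) (σ : Sy m q) (B k K : ℕ) {z : ℕ × (Fin m → ℤ)} (hz : z ∈ σ.GX B)
    (j : ℕ) : (σ.pa B k K z j).1 = z.1 :=
  congrArg (fun v : ℕ × (Fin m → ℤ) × (Fin q → ℤ) => v.1) (para_pa hPK σ B k K hz j).2

open Classical in
theorem para_sum (hPK : ST_PK) (σ : Sy m q) (B k K : ℕ) {z : ℕ × (Fin m → ℤ)} (hz : z ∈ σ.GX B)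
    (g : ℕ × (Fin m → ℤ) → ℝ) :
    ∑ j ∈ range (σ.N0 B), g (σ.pa B k K z j) =
      ∑ z' ∈ fib (σ.GX B) (σ.ff B k K) (σ.ff B k K z),
        (σ.N0 B : ℝ) / ((fib (σ.GX B) (σ.ff B k K) (σ.ff B k K z)).card : ℝ) * g z' := by
  obtain ⟨h1, h2⟩ := para_N0 σ B k K hz
  obtain ⟨h3, h4⟩ := hPK _ _ _ z h1 h2
  rw [← Finset.sum_fiberwise_of_maps_to (g := fun j => σ.pa B k K z j) (fun j _ => h3 j)]
  apply Finset.sum_congr rfl
  intro z' hz'
  have h5 := h4 z' hz'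
  rw [Finset.sum_congr rfl (fun j hj => by rw [(Finset.mem_filter.1 hj).2])]
  rw [Finset.sum_const, nsmul_eq_mul]
  congr 1
  have hc : (0 : ℝ) < ((fib (σ.GX B) (σ.ff B k K) (σ.ff B k K z)).card : ℝ) := by
    exact_mod_cast h1.card_pos
  rw [eq_div_iff hc.ne', ← Nat.cast_mul]
  refine congrArg (Nat.cast : ℕ → ℝ) (Eq.trans ?_ h5)
  refine congrArg (fun t => t * _) (congrArg Finset.card ?_)
  unfold Sy.pa
  congr

/-- exchange of a point and its partner -/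
theorem para_swap (hPK : ST_PK) (σ : Sy m q) (B k K : ℕ)
    (Ψ : ℕ × (Fin m → ℤ) → ℕ × (Fin m → ℤ) → ℝ) :
    ∑ z ∈ σ.GX B, ∑ j ∈ range (σ.N0 B), Ψ z (σ.pa B k K z j) =
      ∑ z ∈ σ.GX B, ∑ j ∈ range (σ.N0 B), Ψ (σ.pa B k K z j) z := by
  rw [Finset.sum_congr rfl (fun z hz => para_sum hPK σ B k K hz (fun z' => Ψ z z')),
    Finset.sum_congr rfl (fun z hz => para_sum hPK σ B k K hz (fun z' => Ψ z' z))]
  rw [Finset.sum_comm' (t' := σ.GX B)
    (s' := fun z' => fib (σ.GX B) (σ.ff B k K) (σ.ff B k K z')) (by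
      intro z z'
      rw [para_fib, para_fib]
      constructor
      · rintro ⟨a, b, c⟩
        exact ⟨⟨a, c.symm⟩, b⟩
      · rintro ⟨⟨a, c⟩, b⟩
        exact ⟨a, b, c.symm⟩)]
  apply Finset.sum_congr rfl
  intro z' _
  apply Finset.sum_congr rfl
  intro z hz
  rw [((para_fib _ _ _ _).1 hz).2]

theorem para_Pa (σ : Sy m q) (B : ℕ) (f : PS m q → ℝ) :
    ∑ ω ∈ σ.Pa B, f ω = ∑ z ∈ σ.GX B, ∑ j ∈ range (σ.N0 B), ∑ u ∈ σ.U B, f ((z, j), u) := by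
  unfold Sy.Pa
  rw [Finset.sum_product, Finset.sum_product]

theorem para_Om (σ : Sy m q) (B : ℕ) (f : BS m q → ℝ) :
    ∑ ω ∈ σ.Om B, f ω = ∑ z ∈ σ.GX B, ∑ u ∈ σ.U B, f (z, u) := by
  unfold Sy.Om
  rw [Finset.sum_product]

/-- first marginal -/
theorem para_m1 (σ : Sy m q) (B : ℕ) (φ : BS m q → ℝ) :
    ∑ ω ∈ σ.Pa B, φ (ω.1.1, ω.2) = σ.N0 B * ∑ ω ∈ σ.Om B, φ ω := by
  rw [para_Pa, para_Om, Finset.mul_sum]
  apply Finset.sum_congr rfl
  intro z _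
  show ∑ j ∈ range (σ.N0 B), ∑ u ∈ σ.U B, φ (z, u) = _
  rw [Finset.sum_const, Finset.card_range, nsmul_eq_mul]

/-- second marginal -/
theorem para_m2 (hPK : ST_PK) (σ : Sy m q) (B k K : ℕ) (φ : BS m q → ℝ) :
    ∑ ω ∈ σ.Pa B, φ ((ω.1.1.1, σ.x1 B k K ω), ω.2) = σ.N0 B * ∑ ω ∈ σ.Om B, φ ω := by
  rw [← para_m1, para_Pa, para_Pa]
  have h := para_swap hPK σ B k K (fun _ z' => ∑ u ∈ σ.U B, φ (z', u))
  refine Eq.trans ?_ h
  apply Finset.sum_congr rfl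
  intro z hz
  apply Finset.sum_congr rfl
  intro j _
  apply Finset.sum_congr rfl
  intro u _
  have h1 := para_pa1 hPK σ B k K hz j
  show φ ((z.1, (σ.pa B k K z j).2), u) = φ (σ.pa B k K z j, u)
  rw [← h1]

/-- symmetry -/
theorem para_sym (hPK : ST_PK) (σ : Sy m q) (B k K : ℕ)
    (ψ : ℕ → (Fin m → ℤ) → (Fin m → ℤ) → (Fin q → ℤ) → ℝ) :
    ∑ ω ∈ σ.Pa B, ψ ω.1.1.1 ω.1.1.2 (σ.x1 B k K ω) ω.2 =
      ∑ ω ∈ σ.Pa B, ψ ω.1.1.1 (σ.x1 B k K ω) ω.1.1.2 ω.2 := by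
  rw [para_Pa, para_Pa]
  have h := para_swap hPK σ B k K (fun z z' => ∑ u ∈ σ.U B, ψ z.1 z.2 z'.2 u)
  refine Eq.trans h ?_
  apply Finset.sum_congr rfl
  intro z hz
  apply Finset.sum_congr rfl
  intro j _
  apply Finset.sum_congr rfl
  intro u _
  have h1 := para_pa1 hPK σ B k K hz j
  show ψ (σ.pa B k K z j).1 (σ.pa B k K z j).2 z.2 u = ψ z.1 (σ.pa B k K z j).2 z.2 u
  rw [h1]

open Classical in
theorem para_law {Ω α : Type} (S : Finset Ω) (f : Ω → α) (v : α) :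
    law S f v = (∑ ω ∈ S, if f ω = v then (1 : ℝ) else 0) / (S.card : ℝ) := by
  unfold law
  rw [Finset.sum_boole]

theorem para_card (σ : Sy m q) (B : ℕ) : ((σ.Pa B).card : ℝ) = σ.N0 B * (σ.Om B).card := by
  have h := para_m1 σ B (fun _ => 1)
  simpa using h

theorem st_PARA (hPK : ST_PK) : ST_PARA := by
  classical
  intro m q B k K σ
  have hN : (σ.N0 B : ℝ) ≠ 0 := by
    have : 0 < σ.N0 B := Nat.factorial_pos _
    exact_mod_cast this.ne'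
  refine ⟨?_, ?_, ?_, ?_, ?_⟩
  · intro ω hω
    unfold Sy.Pa at hω
    rw [Finset.mem_product, Finset.mem_product] at hω
    have hz := hω.1.1
    obtain ⟨h1, h2⟩ := para_pa hPK σ B k K hz ω.1.2
    have h3 := para_pa1 hPK σ B k K hz ω.1.2
    constructor
    · unfold Sy.GX at h1
      exact (Finset.mem_product.1 h1).2
    · have e : (ω.1.1.1, σ.x1 B k K ω) = σ.pa B k K ω.1.1 ω.1.2 := by
        rw [← h3]
        rfl
      rw [e]
      exact h2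
  · intro α F
    apply ent_eq_of_law
    intro v
    rw [para_law, para_law, para_card,
      para_m1 σ B (fun w => if F w = v then (1 : ℝ) else 0), mul_div_mul_left _ _ hN]
  · intro α F
    apply ent_eq_of_law
    intro v
    rw [para_law, para_law, para_card,
      para_m2 hPK σ B k K (fun w => if F w = v then (1 : ℝ) else 0), mul_div_mul_left _ _ hN]
  · intro α F
    apply ent_eq_of_law
    intro v
    rw [para_law, para_law,
      para_sym hPK σ B k K (fun a b c d => if F a b c d = v then (1 : ℝ) else 0)]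
  · intro φ
    rw [para_m1, para_m2 hPK, para_card]
    constructor <;> ring

end Pool.Agent.Helper70.SK
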