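import Pool.Agent.Helper97.SK.TUP1

/-! Information of tuples and of pairs. -/

set_option autoImplicit false

namespace Pool.Agent.Helper70.SK

open Finset Pool.Agent.Helper70.DK

variable {m q : ℕ}

theorem tup_N0pos (σ : Sy m q) (B : ℕ) : (σ.N0 B : ℝ) ≠ 0 := by
  have : 0 < σ.N0 B := Nat.factorial_pos _
  exact_mod_cast this.ne'

theorem tup_U (σ : Sy m q) {B : ℕ} (hB : 2 ≤ B) : ((σ.U B).card : ℝ) ≠ 0 := by
  have h : (σ.U B).Nonempty := by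
    unfold Sy.U gr
    rw [Fintype.piFinset_nonempty]
    intro _
    rw [Finset.nonempty_Ico]
    have : 0 < B ^ (σ.n + σ.a1 + σ.a3) := Nat.pos_of_ne_zero (pow_ne_zero _ (by omega))
    exact_mod_cast this
  exact_mod_cast h.card_pos.ne'

theorem tup_e1 (σ : Sy m q) (B p : ℕ) (φ : ℕ × (Fin m → ℤ) → ℝ) :
    ∑ ω ∈ σ.Pt B p, φ ω.1 = (σ.N0 B : ℝ) ^ p * ∑ z ∈ σ.GX B, φ z := by
  unfold Sy.Pt
  rw [Finset.sum_product, Finset.mul_sum]
  apply Finset.sum_congr rfl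
  intro z _
  show ∑ js ∈ Fintype.piFinset (fun _ : Fin p => Finset.range (σ.N0 B)), φ z = _
  rw [Finset.sum_const, nsmul_eq_mul, Fintype.card_piFinset]
  simp

theorem tup_e2 (σ : Sy m q) (B p : ℕ) (i : Fin p) (φ : (ℕ × (Fin m → ℤ)) × ℕ → ℝ) :
    ∑ ω ∈ σ.Pt B p, φ (ω.1, ω.2 i) =
      (σ.N0 B : ℝ) ^ (p - 1) * ∑ w ∈ σ.GX B ×ˢ range (σ.N0 B), φ w := by
  unfold Sy.Pt
  rw [Finset.sum_product, Finset.sum_product, Finset.mul_sum]
  apply Finset.sum_congr rfl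
  intro z _
  show ∑ js ∈ Fintype.piFinset (fun _ : Fin p => Finset.range (σ.N0 B)), φ (z, js i) = _
  rw [tup_pi (range (σ.N0 B)) i (fun j => φ (z, j)), card_range]

theorem tup_e3 (σ : Sy m q) (B : ℕ) (φ : (ℕ × (Fin m → ℤ)) × ℕ → ℝ) :
    ∑ ω ∈ σ.Pa B, φ ω.1 = ((σ.U B).card : ℝ) * ∑ w ∈ σ.GX B ×ˢ range (σ.N0 B), φ w := by
  unfold Sy.Pa
  rw [Finset.sum_product, Finset.mul_sum]
  apply Finset.sum_congr rfl
  intro z _
  show ∑ u ∈ σ.U B, φ z = _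
  rw [Finset.sum_const, nsmul_eq_mul]

theorem tup_e4 (σ : Sy m q) (B : ℕ) (φ : ℕ × (Fin m → ℤ) → ℝ) :
    ∑ ω ∈ σ.Pa B, φ ω.1.1 = ((σ.U B).card * σ.N0 B : ℝ) * ∑ z ∈ σ.GX B, φ z := by
  rw [tup_e3 σ B (fun w => φ w.1), Finset.sum_product, mul_assoc]
  congr 1
  rw [Finset.mul_sum]
  apply Finset.sum_congr rfl
  intro z _
  show ∑ j ∈ range (σ.N0 B), φ z = _
  rw [Finset.sum_const, nsmul_eq_mul, card_range]

theorem tup_e5 (hPK : ST_PK) (σ : Sy m q) (B k K : ℕ) (φ : ℕ × (Fin m → ℤ) → ℝ) :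
    ∑ ω ∈ σ.Pa B, φ (ω.1.1.1, σ.x1 B k K ω) =
      ((σ.U B).card * σ.N0 B : ℝ) * ∑ z ∈ σ.GX B, φ z := by
  rw [para_m2 hPK σ B k K (fun w => φ w.1), para_Om]
  have e : ∀ z ∈ σ.GX B, ∑ u ∈ σ.U B, (fun w : BS m q => φ w.1) (z, u) =
      ((σ.U B).card : ℝ) * φ z := by
    intro z _
    show ∑ u ∈ σ.U B, φ z = _
    rw [Finset.sum_const, nsmul_eq_mul]
  rw [Finset.sum_congr rfl e, ← Finset.mul_sum]
  ring

theorem st_TUP (hPK : ST_PK) (_ : ST_PARA) (hGEO : ST_GEO) (hIND : ST_IND) (hDET : ST_DET) :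
    ST_TUP := by
  intro m q p B R κ D hp hB hR hD
  refine ⟨q * Real.log (2 * (⌈m * D * (R + 1)⌉₊ : ℕ) + 3), ?_, ?_⟩
  · apply mul_nonneg (Nat.cast_nonneg _)
    apply Real.log_nonneg
    have : (0 : ℝ) ≤ ((⌈m * D * (R + 1)⌉₊ : ℕ) : ℝ) := Nat.cast_nonneg _
    linarith
  intro σ C hOk k K hkK hK
  set c : ℝ := q * Real.log (2 * (⌈m * D * (R + 1)⌉₊ : ℕ) + 3) with hc
  -- functions on GX
  set X0 : ℕ × (Fin m → ℤ) → Fin m → ℤ := fun z => σ.tr B K z.2 with hX0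
  set b : ℕ × (Fin m → ℤ) → Fin m → ℤ := fun z => σ.tr B k z.2 with hb
  set Yh : ℕ × (Fin m → ℤ) → Fin q → ℤ := fun z => cl B (σ.e K) (σ.Y B z.1 z.2) with hYh
  set γb : ℕ × (Fin m → ℤ) → ℕ × (Fin m → ℤ) := fun z => (z.1, σ.tr B k z.2) with hγb
  have hUN : ((σ.U B).card * σ.N0 B : ℝ) ≠ 0 := mul_ne_zero (tup_U σ hB) (tup_N0pos σ B)
  -- quantities
  obtain ⟨a, ha⟩ : ∃ a, a = cent (σ.GX B) X0 b := ⟨_, rfl⟩
  obtain ⟨y, hy⟩ : ∃ y, y = cent (σ.GX B) Yh γb := ⟨_, rfl⟩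
  obtain ⟨h, hh⟩ : ∃ h, h = cent (σ.GX B) X0 (σ.ff B k K) := ⟨_, rfl⟩
  obtain ⟨t, ht⟩ : ∃ t, t = cent (σ.Pa B) (fun ω => σ.tr B K (σ.x1 B k K ω))
    (fun ω => (X0 ω.1.1, b ω.1.1)) := ⟨_, rfl⟩
  -- Yh is almost a function of X0 and the height
  have hgeo := hGEO m q B R κ D C σ hB hR hD hOk
  have hYc : cent (σ.GX B) Yh (fun z => (X0 z, γb z)) ≤ c := by
    have hs : (0 : ℤ) < (B : ℤ) ^ σ.e K := by
      have : (0 : ℤ) < B := by omega
      positivity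
    have h1 := hDET.2.2 (ℕ × (Fin m → ℤ)) ((Fin m → ℤ) × (ℕ × (Fin m → ℤ))) q
      ⌈m * D * (R + 1)⌉₊ (σ.GX B) (fun z => σ.Y B z.1 z.2) (fun z => (X0 z, γb z))
      (fun v => σ.Y B v.2.1 (fun c => (B : ℤ) ^ (σ.n - K) * v.1 c)) ((B : ℤ) ^ σ.e K) hs ?_
    · exact h1
    · intro z hz r
      have hz' := Finset.mem_product.1 hz
      obtain ⟨c1, c2, _, _⟩ := hgeo.2.2.1 K hK z.2 hz'.2
      have h2 := hgeo.1 z.1 hz'.1 K hK z.2 hz'.2 (σ.co B K z.2) c1 c2.symm r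
      have h3 : |((σ.Y B z.1 z.2 r - σ.Y B z.1 (σ.co B K z.2) r : ℤ) : ℝ)| ≤
          ((⌈m * D * (R + 1)⌉₊ : ℕ) : ℝ) * (B : ℝ) ^ σ.e K := by
        push_cast
        refine h2.trans (mul_le_mul_of_nonneg_right (Nat.le_ceil _) ?_)
        positivity
      have h4 : ((|σ.Y B z.1 z.2 r - σ.Y B z.1 (σ.co B K z.2) r| : ℤ) : ℝ) ≤
          (((⌈m * D * (R + 1)⌉₊ : ℕ) * (B : ℤ) ^ σ.e K : ℤ) : ℝ) := by
        push_cast
        push_cast at h3
        exact h3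
      exact_mod_cast h4
  -- independence of the height
  have ha' : cent (σ.GX B) X0 γb = a := by
    rw [ha]
    obtain ⟨h1, h2⟩ := hIND.2.1 ℕ (Fin m → ℤ) (Fin m → ℤ) (Fin m → ℤ) σ.G (σ.X B)
      (fun x => σ.tr B K x) (fun x => σ.tr B k x) hOk.ne
    exact h2.trans h1.symm
  have hff : ∀ z ∈ σ.GX B, ∀ w ∈ σ.GX B, (Yh z, γb z) = (Yh w, γb w) ↔
      σ.ff B k K z = σ.ff B k K w := by
    intro z _ w _
    simp only [hYh, hγb, Sy.ff, Prod.ext_iff]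
    tauto
  have key : y + h - a ≤ c := by
    have e1 := cent_chain (σ.GX B) Yh X0 γb
    have e2 := cent_chain (σ.GX B) X0 Yh γb
    have e3 := cent_congr_left (σ.GX B) (fun z => (Yh z, X0 z)) (fun z => (X0 z, Yh z)) γb (by
      intro z _ w _ _
      simp only [Prod.ext_iff]
      tauto)
    have e4 := cent_congr_right (σ.GX B) X0 (σ.ff B k K) (fun z => (Yh z, γb z)) hff
    rw [e4, ← hy, ← hh] at e1
    rw [ha'] at e2
    linarith
  -- the pair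
  have pPa : ∀ {α β : Type} (f : ℕ × (Fin m → ℤ) → α) (g : ℕ × (Fin m → ℤ) → β),
      cent (σ.Pa B) (fun ω => f ω.1.1) (fun ω => g ω.1.1) = cent (σ.GX B) f g :=
    fun f g => tup_ceqd (σ.Pa B) (σ.GX B) (fun ω => ω.1.1) _ hUN (tup_e4 σ B) f g
  have pPa' : ∀ {α β : Type} (f : ℕ × (Fin m → ℤ) → α) (g : ℕ × (Fin m → ℤ) → β),
      cent (σ.Pa B) (fun ω => f (ω.1.1.1, σ.x1 B k K ω)) (fun ω => g (ω.1.1.1, σ.x1 B k K ω)) =
        cent (σ.GX B) f g :=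
    fun f g => tup_ceqd (σ.Pa B) (σ.GX B) (fun ω => (ω.1.1.1, σ.x1 B k K ω)) _ hUN
      (tup_e5 hPK σ B k K) f g
  have hTW : a + t - (y + 2 * h) ≤ σ.TW B k K := by
    unfold Sy.TW
    have e1 : cent (σ.Pa B) (fun ω => (σ.tr B K ω.1.1.2, σ.tr B K (σ.x1 B k K ω)))
        (fun ω => σ.tr B k ω.1.1.2) = a + t := by
      rw [cent_chain (σ.Pa B) (fun ω => σ.tr B K ω.1.1.2) (fun ω => σ.tr B K (σ.x1 B k K ω))
        (fun ω => σ.tr B k ω.1.1.2)]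
      rw [show cent (σ.Pa B) (fun ω => σ.tr B K ω.1.1.2) (fun ω => σ.tr B k ω.1.1.2) = a from
        (pPa X0 b).trans ha.symm, ht]
    have e2 : cent (σ.Pa B) (fun ω => (σ.tr B K ω.1.1.2, σ.tr B K (σ.x1 B k K ω)))
        (fun ω => (ω.1.1.1, σ.tr B k ω.1.1.2)) ≤ y + 2 * h := by
      have f1 := cent_mono_left (σ.Pa B)
        (fun ω => (σ.tr B K ω.1.1.2, σ.tr B K (σ.x1 B k K ω)))
        (fun ω => (Yh ω.1.1, (σ.tr B K ω.1.1.2, σ.tr B K (σ.x1 B k K ω))))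
        (fun ω => γb ω.1.1) (fun _ _ _ _ e _ => (Prod.ext_iff.1 e).2)
      have f2 := cent_chain (σ.Pa B) (fun ω => Yh ω.1.1)
        (fun ω => (σ.tr B K ω.1.1.2, σ.tr B K (σ.x1 B k K ω))) (fun ω => γb ω.1.1)
      have f3 := cent_pair_le (σ.Pa B) (fun ω => σ.tr B K ω.1.1.2)
        (fun ω => σ.tr B K (σ.x1 B k K ω)) (fun ω => (Yh ω.1.1, γb ω.1.1))
      have f4 : cent (σ.Pa B) (fun ω => Yh ω.1.1) (fun ω => γb ω.1.1) = y :=
        (pPa Yh γb).trans hy.symm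
      have f5 : cent (σ.Pa B) (fun ω => σ.tr B K ω.1.1.2) (fun ω => (Yh ω.1.1, γb ω.1.1)) = h := by
        refine (pPa X0 (fun z => (Yh z, γb z))).trans ?_
        rw [hh]
        exact (cent_congr_right (σ.GX B) X0 (σ.ff B k K) (fun z => (Yh z, γb z)) hff)
      have f6 : cent (σ.Pa B) (fun ω => σ.tr B K (σ.x1 B k K ω))
          (fun ω => (Yh ω.1.1, γb ω.1.1)) = h := by
        have g1 : cent (σ.Pa B) (fun ω => σ.tr B K (σ.x1 B k K ω))
          (fun ω => (Yh ω.1.1, γb ω.1.1)) = cent (σ.Pa B) (fun ω => σ.tr B K (σ.x1 B k K ω))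
          (fun ω => σ.ff B k K (ω.1.1.1, σ.x1 B k K ω)) := by
          apply cent_congr_right
          intro ω hω ω' hω'
          have k1 : ∀ w ∈ σ.Pa B, w.1.1 ∈ σ.GX B ∧
              σ.ff B k K (w.1.1.1, σ.x1 B k K w) = σ.ff B k K w.1.1 := by
            intro w hw
            unfold Sy.Pa at hw
            rw [Finset.mem_product, Finset.mem_product] at hw
            have hz := hw.1.1
            refine ⟨hz, ?_⟩
            have h3 := para_pa1 hPK σ B k K hz w.1.2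
            have e : (w.1.1.1, σ.x1 B k K w) = σ.pa B k K w.1.1 w.1.2 := by
              rw [← h3]
              rfl
            rw [e]
            exact (para_pa hPK σ B k K hz w.1.2).2
          rw [(k1 ω hω).2, (k1 ω' hω').2]
          exact hff _ (k1 ω hω).1 _ (k1 ω' hω').1
        rw [g1]
        exact (pPa' X0 (σ.ff B k K)).trans hh.symm
      have f1' : cent (σ.Pa B) (fun ω => (σ.tr B K ω.1.1.2, σ.tr B K (σ.x1 B k K ω)))
          (fun ω => (ω.1.1.1, σ.tr B k ω.1.1.2)) ≤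
          cent (σ.Pa B) (fun ω => (Yh ω.1.1, (σ.tr B K ω.1.1.2, σ.tr B K (σ.x1 B k K ω))))
            (fun ω => γb ω.1.1) := f1
      rw [f5, f6] at f3
      rw [f4] at f2
      linarith
    linarith
  -- the tuple
  have hN0 : (σ.N0 B : ℝ) ^ p ≠ 0 := pow_ne_zero _ (tup_N0pos σ B)
  have pPt : ∀ {α β : Type} (f : ℕ × (Fin m → ℤ) → α) (g : ℕ × (Fin m → ℤ) → β),
      cent (σ.Pt B p) (fun ω => f ω.1) (fun ω => g ω.1) = cent (σ.GX B) f g :=
    fun f g => tup_ceqd (σ.Pt B p) (σ.GX B) (fun ω => ω.1) _ hN0 (tup_e1 σ B p) f g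
  have hA : ∀ {β : Type} (g : (ℕ × (Fin m → ℤ)) × (Fin p → ℕ) → β),
      cent (σ.Pt B p) (fun ω i => σ.tr B K (σ.xt B k K p ω i)) g =
      cent (σ.Pt B p) (fun ω => (X0 ω.1, fun i : Fin p => X0 (σ.pa B k K ω.1 (ω.2 i)))) g := by
    intro β g
    apply cent_congr_left
    intro ω _ ω' _ _
    rw [Prod.ext_iff]
    constructor
    · rintro ⟨h1, h2⟩
      funext i
      refine Fin.cases h1 (fun i' => ?_) i
      exact congrFun h2 i'
    · intro h1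
      exact ⟨congrFun h1 0, funext (fun i => congrFun h1 i.succ)⟩
  have hup : cent (σ.Pt B p) (fun ω i => σ.tr B K (σ.xt B k K p ω i)) (fun ω => σ.tr B k ω.1.2) ≤
      a + p * t := by
    rw [hA, cent_chain (σ.Pt B p) (fun ω => X0 ω.1)
      (fun ω => fun i : Fin p => X0 (σ.pa B k K ω.1 (ω.2 i))) (fun ω => σ.tr B k ω.1.2)]
    have e1 : cent (σ.Pt B p) (fun ω => X0 ω.1) (fun ω => σ.tr B k ω.1.2) = a :=
      (pPt X0 b).trans ha.symm
    have e2 := tup_subadd (σ.Pt B p) p (fun i ω => X0 (σ.pa B k K ω.1 (ω.2 i)))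
      (fun ω => (X0 ω.1, σ.tr B k ω.1.2))
    have e3 : ∀ i : Fin p, cent (σ.Pt B p) (fun ω => X0 (σ.pa B k K ω.1 (ω.2 i)))
        (fun ω => (X0 ω.1, σ.tr B k ω.1.2)) = t := by
      intro i
      have g1 := tup_ceqd (σ.Pt B p) (σ.GX B ×ˢ range (σ.N0 B)) (fun ω => (ω.1, ω.2 i)) _
        (pow_ne_zero (p - 1) (tup_N0pos σ B)) (tup_e2 σ B p i)
        (fun w => X0 (σ.pa B k K w.1 w.2)) (fun w => (X0 w.1, b w.1))
      have g2 := tup_ceqd (σ.Pa B) (σ.GX B ×ˢ range (σ.N0 B)) (fun ω => ω.1) _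
        (tup_U σ hB) (tup_e3 σ B)
        (fun w => X0 (σ.pa B k K w.1 w.2)) (fun w => (X0 w.1, b w.1))
      rw [ht]
      exact g1.trans g2.symm
    rw [Finset.sum_congr rfl (fun i _ => e3 i), Finset.sum_const, Finset.card_univ,
      Fintype.card_fin, nsmul_eq_mul] at e2
    rw [e1]
    linarith
  have hlow : y + (p + 1) * h - c ≤
      cent (σ.Pt B p) (fun ω i => σ.tr B K (σ.xt B k K p ω i))
        (fun ω => (ω.1.1, σ.tr B k ω.1.2)) := by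
    rw [hA]
    have hiid := tup_iid (σ.GX B) X0 (σ.ff B k K) (σ.N0 B) p (σ.pa B k K)
      (Nat.factorial_pos _) (fun z hz j => para_pa hPK σ B k K hz j)
      (fun z hz φ => para_sum hPK σ B k K hz φ) (fun φ => by
        rw [para_swap hPK σ B k K (fun _ z' => φ z'), Finset.mul_sum]
        apply Finset.sum_congr rfl
        intro z _
        rw [Finset.sum_const, card_range, nsmul_eq_mul])
    rw [← hh] at hiid
    have e1 := cent_chain (σ.Pt B p) (fun ω => Yh ω.1)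
      (fun ω => (X0 ω.1, fun i : Fin p => X0 (σ.pa B k K ω.1 (ω.2 i)))) (fun ω => γb ω.1)
    have e2 := cent_chain (σ.Pt B p)
      (fun ω => (X0 ω.1, fun i : Fin p => X0 (σ.pa B k K ω.1 (ω.2 i))))
      (fun ω => Yh ω.1) (fun ω => γb ω.1)
    have e3 := cent_congr_left (σ.Pt B p)
      (fun ω => (Yh ω.1, (X0 ω.1, fun i : Fin p => X0 (σ.pa B k K ω.1 (ω.2 i)))))
      (fun ω => ((X0 ω.1, fun i : Fin p => X0 (σ.pa B k K ω.1 (ω.2 i))), Yh ω.1))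
      (fun ω => γb ω.1) (by
      intro z _ w _ _
      exact ⟨fun e => Prod.ext (Prod.ext_iff.1 e).2 (Prod.ext_iff.1 e).1,
        fun e => Prod.ext (Prod.ext_iff.1 e).2 (Prod.ext_iff.1 e).1⟩)
    have e4 : cent (σ.Pt B p) (fun ω => Yh ω.1) (fun ω => γb ω.1) = y :=
      (pPt Yh γb).trans hy.symm
    have e5 : cent (σ.Pt B p)
        (fun ω => (X0 ω.1, fun i : Fin p => X0 (σ.pa B k K ω.1 (ω.2 i))))
        (fun ω => (Yh ω.1, γb ω.1)) = (p + 1) * h := by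
      rw [← hiid]
      apply cent_congr_right
      intro ω hω ω' hω'
      exact hff _ (Finset.mem_product.1 hω).1 _ (Finset.mem_product.1 hω').1
    have e6 : cent (σ.Pt B p) (fun ω => Yh ω.1)
        (fun ω => ((X0 ω.1, fun i : Fin p => X0 (σ.pa B k K ω.1 (ω.2 i))), γb ω.1)) ≤ c := by
      refine le_trans (cent_mono_right (σ.Pt B p) (fun ω => Yh ω.1)
        (fun ω => (X0 ω.1, γb ω.1)) _ ?_) ?_
      · intro ω _ ω' _ e
        rw [Prod.ext_iff] at e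
        exact Prod.ext (Prod.ext_iff.1 e.1).1 e.2
      · exact (le_of_eq (pPt Yh (fun z => (X0 z, γb z)))).trans hYc
    have e7 : cent (σ.Pt B p)
        (fun ω => (X0 ω.1, fun i : Fin p => X0 (σ.pa B k K ω.1 (ω.2 i))))
        (fun ω => (ω.1.1, σ.tr B k ω.1.2)) = cent (σ.Pt B p)
        (fun ω => (X0 ω.1, fun i : Fin p => X0 (σ.pa B k K ω.1 (ω.2 i))))
        (fun ω => γb ω.1) := rfl
    rw [e7]
    rw [e4, e5] at e1
    linarith
  -- conclusion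
  have hp' : (1 : ℝ) ≤ p := by exact_mod_cast hp
  have h1 : (p : ℝ) * (a + t - (y + 2 * h)) ≤ p * σ.TW B k K :=
    mul_le_mul_of_nonneg_left hTW (by linarith)
  have h2 : ((p : ℝ) - 1) * (y + h - a) ≤ (p - 1) * c :=
    mul_le_mul_of_nonneg_left key (by linarith)
  rw [mul_add]
  nlinarith

end Pool.Agent.Helper70.SK
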