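import Pool.Agent.Helper97.SK.PARA

/-! Information of tuples: independence given the common function. -/

set_option autoImplicit false

namespace Pool.Agent.Helper70.SK

open Finset Pool.Agent.Helper70.DK

/-- equidistributed maps -/
theorem tup_eqd {Ω Ω' α : Type} (S : Finset Ω) (S' : Finset Ω') (e : Ω → Ω') (c : ℝ) (hc : c ≠ 0)
    (h : ∀ φ : Ω' → ℝ, ∑ ω ∈ S, φ (e ω) = c * ∑ ω' ∈ S', φ ω') (f : Ω' → α) :
    ent S (fun ω => f (e ω)) = ent S' f := by
  classical
  apply ent_eq_of_law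
  intro v
  have hcard : (S.card : ℝ) = c * S'.card := by
    have := h (fun _ => 1)
    simpa using this
  rw [para_law, para_law, hcard, h (fun w => if f w = v then (1 : ℝ) else 0),
    mul_div_mul_left _ _ hc]

theorem tup_ceqd {Ω Ω' α β : Type} (S : Finset Ω) (S' : Finset Ω') (e : Ω → Ω') (c : ℝ)
    (hc : c ≠ 0) (h : ∀ φ : Ω' → ℝ, ∑ ω ∈ S, φ (e ω) = c * ∑ ω' ∈ S', φ ω') (f : Ω' → α)
    (g : Ω' → β) : cent S (fun ω => f (e ω)) (fun ω => g (e ω)) = cent S' f g := by
  unfold cent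
  rw [tup_eqd S S' e c hc h (fun w => (f w, g w)), tup_eqd S S' e c hc h g]

/-- one coordinate of a product -/
theorem tup_pi {p : ℕ} (s : Finset ℕ) (i : Fin p) (φ : ℕ → ℝ) :
    ∑ js ∈ Fintype.piFinset (fun _ : Fin p => s), φ (js i) =
      (s.card : ℝ) ^ (p - 1) * ∑ j ∈ s, φ j := by
  classical
  have h := Finset.prod_univ_sum (t := fun _ : Fin p => s)
    (f := fun i' j => if i' = i then φ j else (1 : ℝ))
  have e1 : ∀ js : Fin p → ℕ, ∏ i' : Fin p, (if i' = i then φ (js i') else (1 : ℝ)) = φ (js i) := by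
    intro js
    rw [Finset.prod_ite_eq' univ i (fun i' => φ (js i'))]
    rw [if_pos (mem_univ i)]
  rw [Finset.sum_congr rfl (fun js _ => e1 js)] at h
  rw [← h, ← Finset.mul_prod_erase univ _ (mem_univ i)]
  have e2 : ∏ i' ∈ univ.erase i, ∑ j ∈ s, (if i' = i then φ j else (1 : ℝ)) =
      (s.card : ℝ) ^ (p - 1) := by
    rw [Finset.prod_congr rfl (g := fun _ => (s.card : ℝ)) (by
      intro i' hi'
      have hne := Finset.ne_of_mem_erase hi'
      rw [Finset.sum_congr rfl (fun j _ => if_neg hne), Finset.sum_const, nsmul_eq_mul, mul_one])]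
    rw [Finset.prod_const, Finset.card_erase_of_mem (mem_univ i), Finset.card_univ,
      Fintype.card_fin]
  rw [e2]
  have e3 : ∑ j ∈ s, (if i = i then φ j else (1 : ℝ)) = ∑ j ∈ s, φ j := by
    apply Finset.sum_congr rfl
    intro j _
    rw [if_pos rfl]
  rw [e3, mul_comm]

/-- subadditivity -/
theorem tup_subadd {Ω α β : Type} (S : Finset Ω) : ∀ (p : ℕ) (f : Fin p → Ω → α) (g : Ω → β),
    cent S (fun ω i => f i ω) g ≤ ∑ i : Fin p, cent S (f i) g := by
  intro p
  induction p with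
  | zero =>
    intro f g
    rw [Finset.univ_eq_empty, Finset.sum_empty]
    refine le_of_eq (cent_zero S _ g ?_)
    intro x _ y _ _
    funext i
    exact i.elim0
  | succ p ih =>
    intro f g
    rw [Fin.sum_univ_succ]
    refine le_trans (cent_mono_left S _ (fun ω => (f 0 ω, fun i : Fin p => f i.succ ω)) g ?_) ?_
    · intro x _ y _ h _
      have h1 := (Prod.ext_iff.1 h).1
      have h2 := (Prod.ext_iff.1 h).2
      funext i
      refine Fin.cases h1 (fun i' => ?_) i
      exact congrFun h2 i'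
    · exact (cent_pair_le S _ _ g).trans (add_le_add le_rfl (ih (fun i => f i.succ) g))

section abs

variable {Ω α β : Type}

theorem tup_ent (S : Finset Ω) (f : Ω → α) : ent S f =
    (∑ ω ∈ S, (Real.log (S.card : ℝ) - Real.log ((fib S f (f ω)).card : ℝ))) / (S.card : ℝ) := rfl

open Classical in
/-- independent copies given `g` -/
theorem tup_iid (S : Finset Ω) (f : Ω → α) (g : Ω → β) (N p : ℕ) (pa : Ω → ℕ → Ω) (hN : 0 < N)
    (h1 : ∀ z ∈ S, ∀ j, pa z j ∈ S ∧ g (pa z j) = g z)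
    (h2 : ∀ z ∈ S, ∀ φ : Ω → ℝ, ∑ j ∈ range N, φ (pa z j) =
      ∑ z' ∈ fib S g (g z), (N : ℝ) / ((fib S g (g z)).card : ℝ) * φ z')
    (h3 : ∀ φ : Ω → ℝ, ∑ z ∈ S, ∑ j ∈ range N, φ (pa z j) = N * ∑ z ∈ S, φ z) :
    cent (S ×ˢ Fintype.piFinset (fun _ : Fin p => range N))
      (fun ω => (f ω.1, fun i : Fin p => f (pa ω.1 (ω.2 i)))) (fun ω => g ω.1) =
      (p + 1) * cent S f g := by
  set T : Finset (Fin p → ℕ) := Fintype.piFinset (fun _ : Fin p => range N) with hT
  have hTc : (T.card : ℝ) = (N : ℝ) ^ p := by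
    rw [hT, Fintype.card_piFinset]
    simp
  have hNr : (0 : ℝ) < N := by exact_mod_cast hN
  -- cardinalities of fibres
  set n : Ω → ℝ := fun z => ((fib S g (g z)).card : ℝ) with hn
  set n' : Ω → ℝ := fun z => ((fib S (fun w => (f w, g w)) (f z, g z)).card : ℝ) with hn'
  have npos : ∀ z ∈ S, 0 < n z := fun z hz => by
    have : 0 < (fib S g (g z)).card := card_pos.2 ⟨z, (para_fib _ _ _ _).2 ⟨hz, rfl⟩⟩
    simp only [hn]
    exact Nat.cast_pos.2 this
  have npos' : ∀ z ∈ S, 0 < n' z := fun z hz => by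
    have : 0 < (fib S (fun w => (f w, g w)) (f z, g z)).card :=
      card_pos.2 ⟨z, (para_fib _ _ _ _).2 ⟨hz, rfl⟩⟩
    simp only [hn']
    exact Nat.cast_pos.2 this
  -- number of indices
  have hcount : ∀ z ∈ S, ∀ v : α, (((range N).filter (fun j => f (pa z j) = v)).card : ℝ) =
      (N : ℝ) / n z * ((fib S (fun w => (f w, g w)) (v, g z)).card : ℝ) := by
    intro z hz v
    have e1 := h2 z hz (fun w => if f w = v then (1 : ℝ) else 0)
    rw [Finset.sum_boole] at e1
    rw [e1, ← Finset.mul_sum, Finset.sum_boole]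
    congr 2
    apply congrArg Finset.card
    ext w
    rw [Finset.mem_filter, para_fib, para_fib, Prod.ext_iff]
    constructor
    · rintro ⟨⟨a, b⟩, c⟩
      exact ⟨a, c, b⟩
    · rintro ⟨a, c, b⟩
      exact ⟨⟨a, b⟩, c⟩
  -- fibres of the tuple
  set F : Ω × (Fin p → ℕ) → (α × (Fin p → α)) × β :=
    fun ω => ((f ω.1, fun i : Fin p => f (pa ω.1 (ω.2 i))), g ω.1) with hF
  have hfib : ∀ ω ∈ S ×ˢ T, ((fib (S ×ˢ T) F (F ω)).card : ℝ) =
      n' ω.1 * ∏ i : Fin p, ((N : ℝ) / n ω.1 * n' (pa ω.1 (ω.2 i))) := by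
    intro ω hω
    have hz := (mem_product.1 hω).1
    have e1 : fib (S ×ˢ T) F (F ω) =
      (fib S (fun w => (f w, g w)) (f ω.1, g ω.1)).biUnion (fun z' =>
        (Fintype.piFinset (fun i : Fin p => (range N).filter
          (fun j => f (pa z' j) = f (pa ω.1 (ω.2 i))))).map
          ⟨fun js => (z', js), fun a b h => (Prod.ext_iff.1 h).2⟩) := by
      ext ω'
      rw [para_fib, mem_product, mem_biUnion, hT, Fintype.mem_piFinset]
      constructor
      · rintro ⟨⟨a1, a2⟩, a3⟩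
        simp only [hF] at a3
        rw [Prod.ext_iff, Prod.ext_iff] at a3
        refine ⟨ω'.1, (para_fib _ _ _ _).2 ⟨a1, Prod.ext a3.1.1 a3.2⟩, mem_map.2
          ⟨ω'.2, ?_, rfl⟩⟩
        rw [Fintype.mem_piFinset]
        intro i
        rw [Finset.mem_filter]
        exact ⟨a2 i, congrFun a3.1.2 i⟩
      · rintro ⟨z', b1, b2⟩
        obtain ⟨js, b3, rfl⟩ := mem_map.1 b2
        obtain ⟨c1, c2⟩ := (para_fib _ _ _ _).1 b1
        rw [Fintype.mem_piFinset] at b3
        rw [Prod.ext_iff] at c2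
        refine ⟨⟨c1, fun i => (Finset.mem_filter.1 (b3 i)).1⟩, ?_⟩
        refine Prod.ext (Prod.ext c2.1 ?_) c2.2
        funext i
        exact (Finset.mem_filter.1 (b3 i)).2
    rw [e1, Finset.card_biUnion]
    · push_cast
      have e2 : ∀ z' ∈ fib S (fun w => (f w, g w)) (f ω.1, g ω.1),
          ((((Fintype.piFinset (fun i : Fin p => (range N).filter
          (fun j => f (pa z' j) = f (pa ω.1 (ω.2 i))))).map
          ⟨fun js => (z', js), fun a b h => (Prod.ext_iff.1 h).2⟩).card : ℕ) : ℝ) =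
          ∏ i : Fin p, ((N : ℝ) / n ω.1 * n' (pa ω.1 (ω.2 i))) := by
        intro z' hz'
        obtain ⟨c1, c2⟩ := (para_fib _ _ _ _).1 hz'
        have c3 : g z' = g ω.1 := (Prod.ext_iff.1 c2).2
        rw [card_map, Fintype.card_piFinset]
        push_cast
        apply Finset.prod_congr rfl
        intro i _
        rw [hcount z' c1]
        have e3 : n z' = n ω.1 := by
          simp only [hn]
          rw [c3]
        have e4 : g (pa ω.1 (ω.2 i)) = g z' := by
          rw [(h1 ω.1 hz _).2]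
          exact c3.symm
        rw [e3]
        simp only [hn']
        rw [e4]
      rw [Finset.sum_congr rfl e2, Finset.sum_const, nsmul_eq_mul]
    · intro z1 _ z2 _ hne
      rw [Function.onFun, Finset.disjoint_left]
      intro w hw1 hw2
      obtain ⟨a, _, rfl⟩ := mem_map.1 hw1
      obtain ⟨b, _, hb⟩ := mem_map.1 hw2
      exact hne (Prod.ext_iff.1 hb).1.symm
  have hfib2 : ∀ ω ∈ S ×ˢ T, ((fib (S ×ˢ T) (fun ω' => g ω'.1) (g ω.1)).card : ℝ) =
      n ω.1 * (N : ℝ) ^ p := by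
    intro ω _
    have e1 : fib (S ×ˢ T) (fun ω' => g ω'.1) (g ω.1) = fib S g (g ω.1) ×ˢ T := by
      ext ω'
      rw [para_fib, mem_product, mem_product, para_fib]
      tauto
    rw [e1, card_product]
    push_cast
    rw [hTc]
  -- main computation
  rcases S.eq_empty_or_nonempty with hS | hS
  · subst hS
    simp [cent, ent]
  have hSc : (0 : ℝ) < S.card := by exact_mod_cast hS.card_pos
  have hNp : (0 : ℝ) < (N : ℝ) ^ p := by positivity
  have hSTc : ((S ×ˢ T).card : ℝ) = S.card * (N : ℝ) ^ p := by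
    rw [card_product]
    push_cast
    rw [hTc]
  set L : Ω → ℝ := fun z => Real.log (n z) - Real.log (n' z) with hL
  have hterm : ∀ ω ∈ S ×ˢ T,
      (Real.log ((S ×ˢ T).card : ℝ) - Real.log ((fib (S ×ˢ T) F (F ω)).card : ℝ)) -
      (Real.log ((S ×ˢ T).card : ℝ) -
        Real.log ((fib (S ×ˢ T) (fun ω' => g ω'.1) (g ω.1)).card : ℝ)) =
      L ω.1 + ∑ i : Fin p, L (pa ω.1 (ω.2 i)) := by
    intro ω hω
    have hz := (mem_product.1 hω).1
    rw [hfib ω hω, hfib2 ω hω]
    have p1 := npos _ hz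
    have p2 := npos' _ hz
    have p3 : ∀ i : Fin p, 0 < n' (pa ω.1 (ω.2 i)) := fun i => npos' _ (h1 _ hz _).1
    have p4 : ∀ i : Fin p, n (pa ω.1 (ω.2 i)) = n ω.1 := fun i => by
      simp only [hn]
      rw [(h1 _ hz _).2]
    have p5 : ∀ i : Fin p, 0 < (N : ℝ) / n ω.1 * n' (pa ω.1 (ω.2 i)) := fun i =>
      mul_pos (div_pos hNr p1) (p3 i)
    rw [Real.log_mul p2.ne' (Finset.prod_pos (fun i _ => p5 i)).ne', Real.log_prod (fun i _ => (p5 i).ne'),
      Real.log_mul p1.ne' hNp.ne', Real.log_pow]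
    have e5 : ∀ i : Fin p, Real.log ((N : ℝ) / n ω.1 * n' (pa ω.1 (ω.2 i))) =
        Real.log N - L (pa ω.1 (ω.2 i)) := by
      intro i
      rw [Real.log_mul (div_pos hNr p1).ne' (p3 i).ne', Real.log_div hNr.ne' p1.ne']
      simp only [hL]
      rw [p4 i]
      ring
    rw [Finset.sum_congr rfl (fun i _ => e5 i), Finset.sum_sub_distrib, Finset.sum_const,
      Finset.card_univ, Fintype.card_fin, nsmul_eq_mul]
    simp only [hL]
    ring
  have hsum1 : ∑ ω ∈ S ×ˢ T, L ω.1 = (N : ℝ) ^ p * ∑ z ∈ S, L z := by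
    rw [Finset.sum_product, Finset.mul_sum]
    apply Finset.sum_congr rfl
    intro z _
    show ∑ js ∈ T, L z = _
    rw [Finset.sum_const, nsmul_eq_mul, hTc]
  have hsum2 : ∀ i : Fin p, ∑ ω ∈ S ×ˢ T, L (pa ω.1 (ω.2 i)) = (N : ℝ) ^ p * ∑ z ∈ S, L z := by
    intro i
    rw [Finset.sum_product]
    show ∑ z ∈ S, ∑ js ∈ T, L (pa z (js i)) = _
    rw [Finset.sum_congr rfl (fun z _ => tup_pi (range N) i (fun j => L (pa z j))), card_range,
      ← Finset.mul_sum, h3, ← mul_assoc, ← pow_succ]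
    congr 2
    have := i.isLt
    omega
  have hcent : cent (S ×ˢ T) (fun ω => (f ω.1, fun i : Fin p => f (pa ω.1 (ω.2 i))))
      (fun ω => g ω.1) = (∑ ω ∈ S ×ˢ T, (L ω.1 + ∑ i : Fin p, L (pa ω.1 (ω.2 i)))) /
        ((S ×ˢ T).card : ℝ) := by
    unfold cent
    rw [tup_ent, tup_ent, ← sub_div, ← Finset.sum_sub_distrib]
    refine congrArg (fun t => t / ((S ×ˢ T).card : ℝ)) ?_
    exact Finset.sum_congr rfl hterm
  have hcent2 : cent S f g = (∑ z ∈ S, L z) / (S.card : ℝ) := by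
    unfold cent
    rw [tup_ent, tup_ent, ← sub_div, ← Finset.sum_sub_distrib]
    refine congrArg (fun t => t / (S.card : ℝ)) ?_
    apply Finset.sum_congr rfl
    intro z _
    simp only [hL, hn, hn']
    ring
  rw [hcent, hcent2, Finset.sum_add_distrib, hsum1, Finset.sum_comm,
    Finset.sum_congr rfl (fun i _ => hsum2 i), Finset.sum_const, Finset.card_univ, Fintype.card_fin,
    nsmul_eq_mul, hSTc]
  field_simp
  ring

end abs

end Pool.Agent.Helper70.SK
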